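import Mathlib

/-! Small integer points in cosets of lattices with small minors (after Borosh–Flahive–Rubin–Treybig). -/

set_option autoImplicit false

namespace Pool.Agent.X277.IS

open Matrix

/-- The minor of a family of integer vectors at the columns `J`. -/
def mnr {k n : ℕ} (B : Fin k → Fin n → ℤ) (J : Fin k → Fin n) : ℤ :=
  (Matrix.of fun a b => B a (J b)).det

/-- `B'` arises from `B` by row operations. -/
structure Eqv {k n : ℕ} (B B' : Fin k → Fin n → ℤ) : Prop where
  span : Submodule.span ℤ (Set.range B') = Submodule.span ℤ (Set.range B)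
  m1 : ∀ J, mnr B' J = mnr B J
  m2 : ∀ (x : Fin n → ℤ) K, mnr (Fin.cons x B' : Fin (k + 1) → Fin n → ℤ) K =
    mnr (Fin.cons x B : Fin (k + 1) → Fin n → ℤ) K

lemma Eqv.refl {k n : ℕ} (B : Fin k → Fin n → ℤ) : Eqv B B := ⟨rfl, fun _ => rfl, fun _ _ => rfl⟩

lemma Eqv.trans {k n : ℕ} {B B' B'' : Fin k → Fin n → ℤ} (h : Eqv B B') (h' : Eqv B' B'') :
    Eqv B B'' :=
  ⟨h'.span.trans h.span, fun J => (h'.m1 J).trans (h.m1 J), fun x K => (h'.m2 x K).trans (h.m2 x K)⟩

lemma mnr_update {k n : ℕ} (B : Fin k → Fin n → ℤ) (p q : Fin k) (hpq : p ≠ q) (c : ℤ)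
    (J : Fin k → Fin n) : mnr (Function.update B p (B p + c • B q)) J = mnr B J := by
  unfold mnr
  have h : (Matrix.of fun a b => Function.update B p (B p + c • B q) a (J b)) =
      Matrix.updateRow (Matrix.of fun a b => B a (J b)) p
        ((Matrix.of fun a b => B a (J b)) p + c • (Matrix.of fun a b => B a (J b)) q) := by
    ext a b
    by_cases ha : a = p
    · subst ha
      simp [Matrix.updateRow_self]
    · simp [Matrix.updateRow_ne ha, Function.update_of_ne ha]
  rw [h, Matrix.det_updateRow_add_smul_self _ hpq]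

lemma Eqv.step {k n : ℕ} (B : Fin k → Fin n → ℤ) (p q : Fin k) (hpq : p ≠ q) (c : ℤ) :
    Eqv B (Function.update B p (B p + c • B q)) := by
  refine ⟨le_antisymm ?_ ?_, fun J => mnr_update B p q hpq c J, fun x K => ?_⟩
  · rw [Submodule.span_le]
    rintro _ ⟨a, rfl⟩
    by_cases ha : a = p
    · subst ha
      rw [Function.update_self]
      exact Submodule.add_mem _ (Submodule.subset_span ⟨a, rfl⟩)
        (Submodule.smul_mem _ _ (Submodule.subset_span ⟨q, rfl⟩))
    · rw [Function.update_of_ne ha]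
      exact Submodule.subset_span ⟨a, rfl⟩
  · rw [Submodule.span_le]
    rintro _ ⟨a, rfl⟩
    by_cases ha : a = p
    · subst ha
      have h1 : B a + c • B q ∈ Submodule.span ℤ
          (Set.range (Function.update B a (B a + c • B q))) :=
        Submodule.subset_span ⟨a, Function.update_self _ _ _⟩
      have h2 : B q ∈ Submodule.span ℤ
          (Set.range (Function.update B a (B a + c • B q))) :=
        Submodule.subset_span ⟨q, Function.update_of_ne hpq.symm _ _⟩
      have h3 := Submodule.sub_mem _ h1 (Submodule.smul_mem _ c h2)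
      simpa using h3
    · exact Submodule.subset_span ⟨a, Function.update_of_ne ha _ _⟩
  · have h : (Fin.cons x (Function.update B p (B p + c • B q)) : Fin (k + 1) → Fin n → ℤ) =
        Function.update (Fin.cons x B : Fin (k + 1) → Fin n → ℤ) p.succ
          ((Fin.cons x B : Fin (k + 1) → Fin n → ℤ) p.succ +
            c • (Fin.cons x B : Fin (k + 1) → Fin n → ℤ) q.succ) := by
      rw [Fin.cons_succ, Fin.cons_succ, Fin.cons_update]
    rw [h, mnr_update _ _ _ (by simpa using hpq)]

/-- Reduction of one coordinate. -/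
lemma red {k n : ℕ} (i : Fin n) : ∀ (N : ℕ) (B : Fin k → Fin n → ℤ), ∑ a, (B a i).natAbs = N →
    ∃ B', Eqv B B' ∧ ∀ p q, p ≠ q → B' p i ≠ 0 → B' q i = 0 := by
  intro N
  induction N using Nat.strong_induction_on with
  | _ N ih =>
    intro B hN
    by_cases h : ∀ p q, p ≠ q → B p i ≠ 0 → B q i = 0
    · exact ⟨B, Eqv.refl B, h⟩
    push Not at h
    obtain ⟨p, q, hpq, hp, hq⟩ := h
    -- wlog
    have key : ∀ p q : Fin k, p ≠ q → B p i ≠ 0 → B q i ≠ 0 → (B q i).natAbs ≤ (B p i).natAbs →
        ∃ B', Eqv B B' ∧ ∀ p q, p ≠ q → B' p i ≠ 0 → B' q i = 0 := by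
      intro p q hpq hp hq hle
      let c : ℤ := -(B p i / B q i)
      let B1 := Function.update B p (B p + c • B q)
      have hB1p : B1 p i = B p i % B q i := by
        simp only [B1, Function.update_self, Pi.add_apply, Pi.smul_apply, smul_eq_mul, c]
        have := Int.emod_add_mul_ediv (B p i) (B q i)
        linarith
      have hlt : (B1 p i).natAbs < (B p i).natAbs := by
        rw [hB1p]
        have h1 := Int.emod_nonneg (B p i) hq
        have h2 := Int.emod_lt_abs (B p i) hq
        rw [Int.abs_eq_natAbs] at h2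
        omega
      have hsum : ∑ a, (B1 a i).natAbs < N := by
        rw [← hN]
        refine Finset.sum_lt_sum (fun a _ => ?_) ⟨p, Finset.mem_univ p, hlt⟩
        by_cases ha : a = p
        · subst ha; exact hlt.le
        · simp only [B1, Function.update_of_ne ha]; exact le_rfl
      obtain ⟨B', h1, h2⟩ := ih _ hsum B1 rfl
      exact ⟨B', (Eqv.step B p q hpq c).trans h1, h2⟩
    rcases le_total (B q i).natAbs (B p i).natAbs with h | h
    · exact key p q hpq hp hq h
    · exact key q p hpq.symm hq hp h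

/-- Expansion along the first column if the column has only one nonzero entry. -/
lemma mnr_cons_single {k n : ℕ} (V : Fin (k + 1) → Fin n → ℤ) (i : Fin n) (p : Fin (k + 1))
    (hp : ∀ q, q ≠ p → V q i = 0) (J : Fin k → Fin n) :
    mnr V (Fin.cons i J) = (-1) ^ (p : ℕ) * V p i * mnr (fun a => V (p.succAbove a)) J := by
  unfold mnr
  rw [Matrix.det_succ_column_zero, Finset.sum_eq_single p]
  · simp only [Matrix.of_apply, Fin.cons_zero]
    congr 1
  · intro q _ hq
    simp [hp q hq]
  · intro h; exact absurd (Finset.mem_univ p) h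

lemma exists_minor_ne {k n : ℕ} (V : Fin (k + 1) → Fin n → ℤ) (p : Fin (k + 1))
    (h : ∃ J, mnr V J ≠ 0) : ∃ J, mnr (fun a => V (p.succAbove a)) J ≠ 0 := by
  obtain ⟨J, hJ⟩ := h
  by_contra hcon
  push Not at hcon
  apply hJ
  unfold mnr
  rw [Matrix.det_succ_row _ p]
  refine Finset.sum_eq_zero fun b _ => ?_
  have h1 := hcon (fun b' => J (b.succAbove b'))
  unfold mnr at h1
  have h2 : ((Matrix.of fun a b => V a (J b)).submatrix p.succAbove b.succAbove) =
      (Matrix.of fun a b' => V (p.succAbove a) (J (b.succAbove b'))) := rfl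
  rw [h2, h1, mul_zero]

lemma coord_zero_of_span {k n : ℕ} (V : Fin k → Fin n → ℤ) (i : Fin n) (h : ∀ a, V a i = 0)
    (v : Fin n → ℤ) (hv : v ∈ Submodule.span ℤ (Set.range V)) : v i = 0 := by
  induction hv using Submodule.span_induction with
  | mem x hx => obtain ⟨a, rfl⟩ := hx; exact h a
  | zero => rfl
  | add x y _ _ hx hy => rw [Pi.add_apply, hx, hy, add_zero]
  | smul c x _ hx => rw [Pi.smul_apply, hx, smul_zero]

/-- **Affine version.** -/
theorem affine {n : ℕ} (M : ℤ) : ∀ (k : ℕ) (U : Fin k → Fin n → ℤ) (x : Fin n → ℤ),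
    (∃ J, mnr U J ≠ 0) → (∀ J, |mnr U J| ≤ M) →
    (∀ K, |mnr (Fin.cons x U : Fin (k + 1) → Fin n → ℤ) K| ≤ M) →
    ∃ y, y - x ∈ Submodule.span ℤ (Set.range U) ∧ ∀ j, |y j| ≤ M := by
  intro k
  induction k with
  | zero =>
    intro U x _ _ h2
    refine ⟨x, by simp, fun j => ?_⟩
    have := h2 (fun _ => j)
    have e : mnr (Fin.cons x U : Fin (0 + 1) → Fin n → ℤ) (fun _ => j) = x j := by
      unfold mnr
      rw [Matrix.det_fin_one]
      rfl
    rwa [e] at this
  | succ k ih =>
    intro U x h0 h1 h2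
    have hM : 0 ≤ M := by
      obtain ⟨J, _⟩ := h0
      exact (abs_nonneg _).trans (h1 J)
    -- a nonzero column
    obtain ⟨i, a0, hi⟩ : ∃ i a, U a i ≠ 0 := by
      by_contra hcon
      push Not at hcon
      obtain ⟨J, hJ⟩ := h0
      apply hJ
      unfold mnr
      refine Matrix.det_eq_zero_of_row_eq_zero 0 fun b => ?_
      exact hcon (J b) 0
    obtain ⟨V, hV, hone⟩ := red i _ U rfl
    obtain ⟨p, hp⟩ : ∃ p, V p i ≠ 0 := by
      by_contra hcon
      push Not at hcon
      apply hi
      refine coord_zero_of_span V i hcon (U a0) ?_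
      rw [hV.span]
      exact Submodule.subset_span ⟨a0, rfl⟩
    have hothers : ∀ q, q ≠ p → V q i = 0 := fun q hq => hone p q (Ne.symm hq) hp
    set g : ℤ := V p i with hg
    let U' : Fin k → Fin n → ℤ := fun a => V (p.succAbove a)
    let x' : Fin n → ℤ := x + (-(x i / g)) • V p
    have hx'i : x' i = x i % g := by
      simp only [x', Pi.add_apply, Pi.smul_apply, smul_eq_mul]
      have := Int.emod_add_mul_ediv (x i) g
      rw [← hg]
      linarith
    have hc0 : 0 ≤ x' i := by rw [hx'i]; exact Int.emod_nonneg _ hp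
    have hc1 : x' i + 1 ≤ |g| := by
      rw [hx'i]
      have := Int.emod_lt_abs (x i) hp
      omega
    have hgpos : 1 ≤ |g| := by
      have := abs_pos.2 hp
      omega
    have h0' : ∃ J, mnr U' J ≠ 0 := by
      apply exists_minor_ne V p
      obtain ⟨J, hJ⟩ := h0
      exact ⟨J, by rw [hV.m1]; exact hJ⟩
    have h1' : ∀ J, |mnr U' J| ≤ M := by
      intro J
      have e1 := mnr_cons_single V i p hothers J
      have e2 : |mnr V (Fin.cons i J)| ≤ M := by rw [hV.m1]; exact h1 _
      rw [e1, abs_mul, abs_mul, abs_pow, abs_neg, abs_one, one_pow, one_mul] at e2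
      calc |mnr U' J| = 1 * |mnr U' J| := (one_mul _).symm
        _ ≤ |g| * |mnr U' J| := mul_le_mul_of_nonneg_right hgpos (abs_nonneg _)
        _ ≤ M := e2
    have h2' : ∀ K, |mnr (Fin.cons x' U' : Fin (k + 1) → Fin n → ℤ) K| ≤ M := by
      intro K
      -- the matrix with rows `x'`, `V`
      have e0 : mnr (Fin.cons x' V : Fin (k + 1 + 1) → Fin n → ℤ) (Fin.cons i K) =
          mnr (Fin.cons x U : Fin (k + 1 + 1) → Fin n → ℤ) (Fin.cons i K) := by
        rw [← hV.m2]
        have e : (Fin.cons x' V : Fin (k + 1 + 1) → Fin n → ℤ) =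
            Function.update (Fin.cons x V : Fin (k + 1 + 1) → Fin n → ℤ) 0
              ((Fin.cons x V : Fin (k + 1 + 1) → Fin n → ℤ) 0 + (-(x i / g)) •
                (Fin.cons x V : Fin (k + 1 + 1) → Fin n → ℤ) p.succ) := by
          rw [Fin.cons_zero, Fin.cons_succ, Fin.update_cons_zero]
        rw [e, mnr_update _ _ _ (Fin.succ_ne_zero p).symm]
      have e1 : mnr (Fin.cons x' V : Fin (k + 1 + 1) → Fin n → ℤ) (Fin.cons i K) =
          x' i * mnr V K + (-1) ^ ((p : ℕ) + 1) * g *
            mnr (Fin.cons x' U' : Fin (k + 1) → Fin n → ℤ) K := by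
        unfold mnr
        rw [Matrix.det_succ_column_zero, Fin.sum_univ_succ, Finset.sum_eq_single p]
        · simp only [Matrix.of_apply, Fin.cons_zero, Fin.val_zero, pow_zero, one_mul, Fin.val_succ,
            Fin.cons_succ]
          congr 2
          congr 1
          ext a b
          simp only [Matrix.submatrix_apply, Matrix.of_apply, Fin.cons_succ]
          refine Fin.cases ?_ (fun a' => ?_) a
          · rw [Fin.succ_succAbove_zero]; rfl
          · rw [Fin.succ_succAbove_succ]; rfl
        · intro q _ hq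
          simp [hothers q hq]
        · intro h; exact absurd (Finset.mem_univ p) h
      have e2 : |(-1) ^ ((p : ℕ) + 1) * g * mnr (Fin.cons x' U' : Fin (k + 1) → Fin n → ℤ) K| ≤
          |g| * M := by
        have e3 : (-1) ^ ((p : ℕ) + 1) * g * mnr (Fin.cons x' U' : Fin (k + 1) → Fin n → ℤ) K =
            mnr (Fin.cons x U : Fin (k + 1 + 1) → Fin n → ℤ) (Fin.cons i K) - x' i * mnr V K := by
          rw [← e0, e1]; ring
        rw [e3]
        calc _ ≤ |mnr (Fin.cons x U : Fin (k + 1 + 1) → Fin n → ℤ) (Fin.cons i K)| +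
              |x' i * mnr V K| := abs_sub _ _
          _ ≤ M + x' i * M := by
              refine add_le_add (h2 _) ?_
              rw [abs_mul, abs_of_nonneg hc0]
              refine mul_le_mul_of_nonneg_left ?_ hc0
              rw [hV.m1]; exact h1 K
          _ = (x' i + 1) * M := by ring
          _ ≤ |g| * M := mul_le_mul_of_nonneg_right hc1 hM
      rw [abs_mul, abs_mul, abs_pow, abs_neg, abs_one, one_pow, one_mul] at e2
      exact le_of_mul_le_mul_left e2 (by omega)
    obtain ⟨y, hy1, hy2⟩ := ih U' x' h0' h1' h2'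
    refine ⟨y, ?_, hy2⟩
    have e1 : y - x' ∈ Submodule.span ℤ (Set.range V) :=
      Submodule.span_mono (by rintro _ ⟨a, rfl⟩; exact ⟨p.succAbove a, rfl⟩) hy1
    have e2 : x' - x ∈ Submodule.span ℤ (Set.range V) := by
      have : x' - x = (-(x i / g)) • V p := by simp only [x']; abel
      rw [this]
      exact Submodule.smul_mem _ _ (Submodule.subset_span ⟨p, rfl⟩)
    rw [← hV.span]
    have := Submodule.add_mem _ e1 e2
    simpa using this

/-- **Homogeneous version.** -/
theorem homogeneous {n k : ℕ} (M : ℤ) (B : Fin (k + 1) → Fin n → ℤ) (h0 : ∃ J, mnr B J ≠ 0)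
    (h1 : ∀ J, |mnr B J| ≤ M) (i0 : Fin n) (v : Fin n → ℤ)
    (hv : v ∈ Submodule.span ℤ (Set.range B)) (hv1 : v i0 = 1) :
    ∃ y ∈ Submodule.span ℤ (Set.range B), y i0 = 1 ∧ ∀ j, |y j| ≤ M := by
  obtain ⟨V, hV, hone⟩ := red i0 _ B rfl
  rw [← hV.span] at hv
  obtain ⟨p, hp⟩ : ∃ p, V p i0 ≠ 0 := by
    by_contra hcon
    push Not at hcon
    have := coord_zero_of_span V i0 hcon v hv
    omega
  have hothers : ∀ q, q ≠ p → V q i0 = 0 := fun q hq => hone p q (Ne.symm hq) hp
  have hunit : V p i0 = 1 ∨ V p i0 = -1 := by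
    rw [Submodule.mem_span_range_iff_exists_fun] at hv
    obtain ⟨w, hw⟩ := hv
    have e := congrFun hw i0
    rw [Finset.sum_apply, Finset.sum_eq_single p] at e
    · rw [Pi.smul_apply, smul_eq_mul, hv1] at e
      exact Int.eq_one_or_neg_one_of_mul_eq_one' (by linarith : w p * V p i0 = 1) |>.elim
        (fun h => Or.inl h.2) (fun h => Or.inr h.2)
    · intro q _ hq
      rw [Pi.smul_apply, hothers q hq, smul_zero]
    · intro h; exact absurd (Finset.mem_univ p) h
  obtain ⟨ε, hε, hεi⟩ : ∃ ε : ℤ, |ε| = 1 ∧ ε * V p i0 = 1 := by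
    rcases hunit with h | h
    · exact ⟨1, by simp, by rw [h]; ring⟩
    · exact ⟨-1, by simp, by rw [h]; ring⟩
  let U : Fin k → Fin n → ℤ := fun a => V (p.succAbove a)
  let x : Fin n → ℤ := ε • V p
  have hxi : x i0 = 1 := by simpa [x] using hεi
  have a0 : ∃ J, mnr U J ≠ 0 := by
    apply exists_minor_ne V p
    obtain ⟨J, hJ⟩ := h0
    exact ⟨J, by rw [hV.m1]; exact hJ⟩
  have habs : |V p i0| = 1 := by rcases hunit with h | h <;> rw [h] <;> simp
  have a1 : ∀ J, |mnr U J| ≤ M := by
    intro J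
    have e1 := mnr_cons_single V i0 p hothers J
    have e2 : |mnr V (Fin.cons i0 J)| ≤ M := by rw [hV.m1]; exact h1 _
    rw [e1, abs_mul, abs_mul, abs_pow, abs_neg, abs_one, one_pow, one_mul, habs, one_mul] at e2
    exact e2
  have a2 : ∀ K, |mnr (Fin.cons x U : Fin (k + 1) → Fin n → ℤ) K| ≤ M := by
    intro K
    have e1 : mnr (Fin.cons x U : Fin (k + 1) → Fin n → ℤ) K =
        ε * mnr (Fin.cons (V p) U : Fin (k + 1) → Fin n → ℤ) K := by
      unfold mnr
      have : (Matrix.of fun a b => (Fin.cons x U : Fin (k + 1) → Fin n → ℤ) a (K b)) =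
          Matrix.updateRow (Matrix.of fun a b => (Fin.cons (V p) U : Fin (k + 1) → Fin n → ℤ) a (K b))
            0 (ε • (Matrix.of fun a b => (Fin.cons (V p) U : Fin (k + 1) → Fin n → ℤ) a (K b)) 0) := by
        ext a b
        refine Fin.cases ?_ (fun a' => ?_) a
        · simp [x, Matrix.updateRow_self]
        · rw [Matrix.updateRow_ne (Fin.succ_ne_zero a')]; simp
      rw [this, Matrix.det_updateRow_smul, Matrix.updateRow_eq_self]
    have e2 : mnr (Fin.cons (V p) U : Fin (k + 1) → Fin n → ℤ) K =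
        (Equiv.Perm.sign p.cycleRange.symm : ℤ) * mnr V K := by
      unfold mnr
      have h := Matrix.det_permute p.cycleRange.symm (Matrix.of fun a b => V a (K b))
      rw [Int.cast_id] at h
      rw [← h]
      congr 1
      ext a b
      refine Fin.cases ?_ (fun a' => ?_) a
      · simp [Fin.cycleRange_symm_zero]
      · simp [Fin.cycleRange_symm_succ, U]
    have e3 : |(Equiv.Perm.sign p.cycleRange.symm : ℤ)| = 1 := by
      rcases Int.units_eq_one_or (Equiv.Perm.sign p.cycleRange.symm) with h | h <;> rw [h] <;> simp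
    rw [e1, e2, abs_mul, abs_mul, e3, hε, one_mul, one_mul, hV.m1]
    exact h1 K
  obtain ⟨y, hy1, hy2⟩ := affine M k U x a0 a1 a2
  refine ⟨y, ?_, ?_, hy2⟩
  · rw [← hV.span]
    have e1 : y - x ∈ Submodule.span ℤ (Set.range V) :=
      Submodule.span_mono (by rintro _ ⟨a, rfl⟩; exact ⟨p.succAbove a, rfl⟩) hy1
    have e2 : x ∈ Submodule.span ℤ (Set.range V) :=
      Submodule.smul_mem _ _ (Submodule.subset_span ⟨p, rfl⟩)
    have := Submodule.add_mem _ e1 e2
    simpa using this
  · have e1 : (y - x) i0 = 0 :=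
      coord_zero_of_span U i0 (fun a => hothers _ (Fin.succAbove_ne p a)) _ hy1
    rw [Pi.sub_apply, hxi] at e1
    linarith

end Pool.Agent.X277.IS
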