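import Mathlib
import Pool.Agent.X329.Net.Det
import Pool.Agent.X277.IS.Minors

/-! The lattice of integer points orthogonal to a set of sums of two network vectors. -/

set_option autoImplicit false

namespace Pool.Agent.X277.IS

open Matrix Pool.Agent.X329.Net

/-- Selection of a nonzero determinant. -/
theorem sel {I α : Type*} [Fintype I] [DecidableEq I] (t : α → I → ℤ)
    (h : ∀ z : I → ℤ, (∀ a, ∑ i, t a i * z i = 0) → z = 0) :
    ∃ ρ : I → α, (Matrix.of fun i j => t (ρ i) j).det ≠ 0 := by
  classical
  let c : α → (I → ℚ) := fun a i => (t a i : ℚ)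
  have hspan : Submodule.span ℚ (Set.range c) = ⊤ := by
    by_contra hne
    obtain ⟨f, hf0, hf⟩ := Submodule.exists_dual_map_eq_bot_of_lt_top (lt_top_iff_ne_top.2 hne)
      inferInstance
    have hf' : ∀ a, f (c a) = 0 := by
      intro a
      have h1 : f (c a) ∈ (Submodule.span ℚ (Set.range c)).map f :=
        ⟨c a, Submodule.subset_span ⟨a, rfl⟩, rfl⟩
      rw [hf] at h1
      exact (Submodule.mem_bot ℚ).1 h1
    let y : I → ℚ := fun i => f (Pi.single i 1)
    have hfy : ∀ v : I → ℚ, f v = ∑ i, v i * y i := by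
      intro v
      have h1 : v = ∑ i, v i • (Pi.single i (1 : ℚ) : I → ℚ) := by
        ext j
        simp [Finset.sum_apply, Pi.single_apply]
      conv_lhs => rw [h1]
      rw [map_sum]
      exact Finset.sum_congr rfl fun i _ => by rw [map_smul, smul_eq_mul]
    obtain ⟨b, hb⟩ := IsLocalization.exist_integer_multiples (nonZeroDivisors ℤ)
      (Finset.univ : Finset I) y
    have hb' : ∀ i, ∃ z : ℤ, (z : ℚ) = ((b : ℤ) : ℚ) * y i := by
      intro i
      obtain ⟨z, hz⟩ := hb i (Finset.mem_univ i)
      refine ⟨z, ?_⟩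
      rw [← eq_intCast (algebraMap ℤ ℚ) z, hz]
      show ((b : ℤ) • y i) = _
      rw [zsmul_eq_mul]
    choose z hz using hb'
    have hb0 : ((b : ℤ) : ℚ) ≠ 0 := by
      have := nonZeroDivisors.ne_zero b.2
      exact_mod_cast this
    have hz0 : z = 0 := by
      apply h z
      intro a
      have h1 : ((∑ i, t a i * z i : ℤ) : ℚ) = ((b : ℤ) : ℚ) * ∑ i, (t a i : ℚ) * y i := by
        push_cast
        rw [Finset.mul_sum]
        refine Finset.sum_congr rfl fun i _ => ?_
        rw [hz i]; ring
      have h2 : ∑ i, (t a i : ℚ) * y i = 0 := by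
        rw [← hf' a, hfy]
      rw [h2, mul_zero] at h1
      exact_mod_cast h1
    have hy : y = 0 := by
      ext i
      have h1 := hz i
      rw [hz0, Pi.zero_apply, Int.cast_zero] at h1
      have := (mul_eq_zero.1 h1.symm).resolve_left hb0
      exact this
    apply hf0
    ext v
    rw [LinearMap.comp_apply, LinearMap.zero_comp, LinearMap.zero_apply]
    show f (Pi.single v 1) = 0
    exact congrFun hy v
  obtain ⟨b, hbT, hbspan, hbli⟩ := exists_linearIndependent ℚ (Set.range c)
  have hbspan' : ⊤ ≤ Submodule.span ℚ (Set.range ((↑) : b → I → ℚ)) := by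
    rw [Subtype.range_coe, hbspan, hspan]
  let B : Module.Basis b ℚ (I → ℚ) := Module.Basis.mk hbli hbspan'
  have hfin : Finite b := Module.Finite.finite_basis B
  have := Fintype.ofFinite b
  have hcardb : Fintype.card b = Fintype.card I := by
    have h1 := Module.finrank_eq_card_basis B
    rw [Module.finrank_fintype_fun_eq_card] at h1
    exact h1.symm
  let σ : I ≃ b := Fintype.equivOfCardEq hcardb.symm
  have hrows : ∀ v : b, ∃ a : α, c a = v := fun v => hbT v.2
  choose ρ hρ using hrows
  refine ⟨fun i => ρ (σ i), ?_⟩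
  set A : Matrix I I ℤ := Matrix.of fun i j => t (ρ (σ i)) j with hA
  have hli2 : LinearIndependent ℚ (A.map (Int.cast : ℤ → ℚ)).row := by
    have h1 : (A.map (Int.cast : ℤ → ℚ)).row = fun k => ((σ k : b) : I → ℚ) := by
      ext k j
      exact congrFun (hρ (σ k)) j
    rw [h1]
    exact hbli.comp σ σ.injective
  have h2 := Matrix.linearIndependent_rows_iff_isUnit.1 hli2
  have h3 := (Matrix.isUnit_iff_isUnit_det _).1 h2
  intro h0
  have h4 : (A.map (Int.cast : ℤ → ℚ)).det = (A.det : ℚ) :=
    ((Int.castRingHom ℚ).map_det A).symm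
  rw [h4, h0, Int.cast_zero] at h3
  exact not_isUnit_zero h3

/-- the integer points orthogonal to `R` -/
def orth {n : ℕ} (R : Set (Fin n → ℤ)) : Submodule ℤ (Fin n → ℤ) where
  carrier := {v | ∀ r ∈ R, ∑ i, r i * v i = 0}
  add_mem' := by
    intro a b ha hb r hr
    simp only [Pi.add_apply, mul_add, Finset.sum_add_distrib]
    rw [ha r hr, hb r hr, add_zero]
  zero_mem' := by intro r _; simp
  smul_mem' := by
    intro c a ha r hr
    have : ∑ i, r i * (c • a) i = c * ∑ i, r i * a i := by
      rw [Finset.mul_sum]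
      refine Finset.sum_congr rfl fun i _ => ?_
      rw [Pi.smul_apply, smul_eq_mul]; ring
    rw [this, ha r hr, mul_zero]

lemma mem_orth {n : ℕ} (R : Set (Fin n → ℤ)) (v : Fin n → ℤ) :
    v ∈ orth R ↔ ∀ r ∈ R, ∑ i, r i * v i = 0 := Iff.rfl

/-- A basis with small minors of the lattice orthogonal to a set of sums of two network vectors. -/
theorem basis_small {n : ℕ} (R : Set (Fin n → ℤ))
    (hR : ∀ r ∈ R, ∃ a b, IsNet a ∧ IsNet b ∧ r = a + b) :
    ∃ (k : ℕ) (B : Fin k → Fin n → ℤ), k ≤ n ∧ Submodule.span ℤ (Set.range B) = orth R ∧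
      (∃ J, mnr B J ≠ 0) ∧ ∀ J, |mnr B J| ≤ 2 ^ (n - k) := by
  classical
  obtain ⟨k, bM, bN, f, a, snf⟩ := (orth R).smithNormalForm (Pi.basisFun ℤ (Fin n))
  have ha : ∀ i, a i ≠ 0 := by
    intro i hi
    have h1 := snf i
    rw [hi, zero_smul] at h1
    exact bN.ne_zero i (Subtype.ext h1)
  let B : Fin k → Fin n → ℤ := fun i => bM (f i)
  have hBmem : ∀ i, B i ∈ orth R := by
    intro i r hr
    have h1 : ∑ j, r j * (a i • bM (f i)) j = 0 := by
      rw [← snf i]; exact (bN i).2 r hr
    have h2 : ∑ j, r j * (a i • bM (f i)) j = a i * ∑ j, r j * bM (f i) j := by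
      rw [Finset.mul_sum]
      refine Finset.sum_congr rfl fun j _ => ?_
      rw [Pi.smul_apply, smul_eq_mul]; ring
    rw [h2] at h1
    exact (mul_eq_zero.1 h1).resolve_left (ha i)
  have hspan : Submodule.span ℤ (Set.range B) = orth R := by
    refine le_antisymm ?_ ?_
    · rw [Submodule.span_le]
      rintro _ ⟨i, rfl⟩
      exact hBmem i
    · intro v hv
      have h1 := bN.sum_repr ⟨v, hv⟩
      have h2 := congrArg (Subtype.val) h1
      simp only [Submodule.coe_sum, Submodule.coe_smul] at h2
      rw [← h2]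
      refine Submodule.sum_mem _ fun i _ => Submodule.smul_mem _ _ ?_
      rw [snf i]
      exact Submodule.smul_mem _ _ (Submodule.subset_span ⟨i, rfl⟩)
  have hli : ∀ z : Fin k → ℤ, ∑ i, z i • B i = 0 → z = 0 := by
    have h1 : LinearIndependent ℤ B := bM.linearIndependent.comp f f.injective
    intro z hz
    rw [Fintype.linearIndependent_iff] at h1
    ext i
    exact h1 z hz i
  refine ⟨k, B, ?_, hspan, ?_, ?_⟩
  · simpa using Fintype.card_le_of_embedding f
  · obtain ⟨J, hJ⟩ := sel (fun (j : Fin n) (i : Fin k) => B i j) (by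
      intro z hz
      apply hli z
      ext j
      rw [Finset.sum_apply, Pi.zero_apply, ← hz j]
      refine Finset.sum_congr rfl fun i _ => ?_
      rw [Pi.smul_apply, smul_eq_mul]; ring)
    refine ⟨J, ?_⟩
    unfold mnr
    rw [← Matrix.det_transpose]
    exact hJ
  · intro J
    obtain ⟨p, hpdef⟩ : ∃ p : Fin n → Prop, ∀ c, p c ↔ ∃ i, f i = c := ⟨_, fun _ => Iff.rfl⟩
    let Q : Matrix (Fin n) (Fin n) ℤ := Matrix.of fun i d => bM d i
    have hQ : |Q.det| = 1 := by
      have h1 := (Pi.basisFun ℤ (Fin n)).isUnit_det bM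
      have h2 : (Pi.basisFun ℤ (Fin n)).det bM = Q.det := by
        rw [Module.Basis.det_apply]
        congr 1
      rw [h2] at h1
      exact Int.isUnit_iff_abs_eq.1 h1
    obtain ⟨ρ, hρ⟩ := sel (fun (r : R) (c : {c // ¬ p c}) => ∑ i, (r : Fin n → ℤ) i * bM c i) (by
      intro z hz
      let v : Fin n → ℤ := ∑ c, z c • bM c
      have hv : v ∈ orth R := by
        intro r hr
        have h1 := hz ⟨r, hr⟩
        simp only at h1
        rw [← h1]
        simp only [v, Finset.sum_apply, Pi.smul_apply, smul_eq_mul, Finset.mul_sum, Finset.sum_mul]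
        rw [Finset.sum_comm]
        refine Finset.sum_congr rfl fun c _ => Finset.sum_congr rfl fun i _ => ?_
        ring
      have hrv : ∀ c, ¬ p c → bM.repr v c = 0 := by
        intro c hc
        have h1 : ∀ w ∈ Submodule.span ℤ (Set.range B), bM.repr w c = 0 := by
          intro w hw
          induction hw using Submodule.span_induction with
          | mem x hx =>
            obtain ⟨i, rfl⟩ := hx
            rw [Module.Basis.repr_self, Finsupp.single_apply, if_neg]
            rintro rfl
            exact hc ((hpdef _).2 ⟨i, rfl⟩)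
          | zero => simp
          | add x y _ _ hx hy => rw [map_add, Finsupp.add_apply, hx, hy, add_zero]
          | smul c x _ hx => rw [map_smul, Finsupp.smul_apply, hx, smul_zero]
        exact h1 v (by rw [hspan]; exact hv)
      ext c
      have h2 := hrv c c.2
      simp only [v, map_sum, map_smul, Module.Basis.repr_self, Finsupp.coe_finsetSum,
        Finset.sum_apply, Finsupp.smul_apply, smul_eq_mul] at h2
      rw [Finset.sum_eq_single c] at h2
      · simpa using h2
      · intro d _ hd
        rw [Finsupp.single_apply, if_neg, mul_zero]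
        intro h
        exact hd (Subtype.ext h)
      · intro h; exact absurd (Finset.mem_univ c) h)
    have hpre : ∀ c, p c → ∃ i, f i = c := fun c hc => (hpdef c).1 hc
    choose g hg using hpre
    let G : Matrix (Fin n) (Fin n) ℤ := Matrix.of fun c =>
      if h : p c then Pi.single (J (g c h)) 1 else (ρ ⟨c, h⟩ : Fin n → ℤ)
    have hG1 : ∀ c (h : p c), G c = Pi.single (J (g c h)) 1 := by
      intro c h
      show (if h : p c then Pi.single (J (g c h)) 1 else (ρ ⟨c, h⟩ : Fin n → ℤ)) = _
      rw [dif_pos h]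
    have hG2 : ∀ c (h : ¬ p c), G c = (ρ ⟨c, h⟩ : Fin n → ℤ) := by
      intro c h
      show (if h : p c then Pi.single (J (g c h)) 1 else (ρ ⟨c, h⟩ : Fin n → ℤ)) = _
      rw [dif_neg h]
    have hcard : (Finset.univ.filter fun c => ¬ p c).card = n - k := by
      have h1 : (Finset.univ.filter fun c => p c).card = k := by
        have : (Finset.univ.filter fun c => p c) = Finset.univ.map f := by
          ext c
          simp [hpdef]
        rw [this, Finset.card_map, Finset.card_univ, Fintype.card_fin]
      have h2 := Finset.card_filter_add_card_filter_not (s := (Finset.univ : Finset (Fin n))) p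
      rw [h1, Finset.card_univ, Fintype.card_fin] at h2
      omega
    have hGdet : |G.det| ≤ 2 ^ (n - k) := by
      rw [← hcard]
      refine det_le n _ G (fun c hc => ?_) fun c hc => ?_
      · have hc' : ¬ p c := (Finset.mem_filter.1 hc).2
        rw [hG2 c hc']
        exact hR _ (ρ ⟨c, hc'⟩).2
      · have hc' : p c := by
          by_contra h
          exact hc (Finset.mem_filter.2 ⟨Finset.mem_univ _, h⟩)
        rw [hG1 c hc']
        exact net_single _
    have hGQ : ∀ c d, (G * Q) c d = ∑ i, G c i * bM d i := by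
      intro c d
      rw [Matrix.mul_apply]
      rfl
    clear_value G
    have htri0 : ∀ c, ¬ p c → ∀ d, p d → (G * Q) c d = 0 := by
      intro c hc d hd
      obtain ⟨i, rfl⟩ := (hpdef d).1 hd
      rw [hGQ, hG2 c hc]
      exact (mem_orth R (B i)).1 (hBmem i) _ (ρ ⟨c, hc⟩).2
    have htri : (G * Q).det = (toSquareBlockProp (G * Q) p).det *
        (toSquareBlockProp (G * Q) fun i => ¬p i).det :=
      twoBlockTriangular_det _ p htri0
    have hb2 : (toSquareBlockProp (G * Q) fun i => ¬p i).det ≠ 0 := by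
      have : (toSquareBlockProp (G * Q) fun i => ¬p i) =
          Matrix.of fun i j : {c // ¬ p c} => ∑ l, (ρ i : Fin n → ℤ) l * bM j l := by
        ext i j
        have h6 : (G * Q) i j = ∑ l, (ρ i : Fin n → ℤ) l * bM j l := by
          rw [hGQ, hG2 _ i.2]
        exact h6
      rw [this]
      exact hρ
    have hb1 : (toSquareBlockProp (G * Q) p).det = mnr B J := by
      have h7 : ∀ i j : Fin k, (G * Q) (f j) (f i) = bM (f i) (J j) := by
        intro i j
        have hpj : p (f j) := (hpdef _).2 ⟨j, rfl⟩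
        have hgj : g (f j) hpj = j := f.injective (hg (f j) hpj)
        rw [hGQ, hG1 _ hpj, hgj, Finset.sum_eq_single (J j)]
        · simp
        · intro l _ hl
          simp [hl]
        · intro h; exact absurd (Finset.mem_univ _) h
      let e : Fin k ≃ {c // p c} := Equiv.ofBijective (fun i => ⟨f i, (hpdef _).2 ⟨i, rfl⟩⟩)
        ⟨fun i j h => f.injective (Subtype.ext_iff.1 h), fun c =>
          ⟨g c c.2, Subtype.ext (hg c c.2)⟩⟩
      have h8 : (toSquareBlockProp (G * Q) p).submatrix e e =
          (Matrix.of fun a b : Fin k => B a (J b))ᵀ := by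
        ext i j
        exact h7 j i
      have h9 := Matrix.det_submatrix_equiv_self e (toSquareBlockProp (G * Q) p)
      rw [h8, Matrix.det_transpose] at h9
      exact h9.symm
    have h1 : |mnr B J| * |(toSquareBlockProp (G * Q) fun i => ¬p i).det| = |G.det| := by
      rw [← hb1, ← abs_mul, ← htri, Matrix.det_mul, abs_mul, hQ, mul_one]
    have h2 : 1 ≤ |(toSquareBlockProp (G * Q) fun i => ¬p i).det| :=
      Int.one_le_abs hb2
    calc |mnr B J| = |mnr B J| * 1 := (mul_one _).symm
      _ ≤ |mnr B J| * |(toSquareBlockProp (G * Q) fun i => ¬p i).det| :=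
          mul_le_mul_of_nonneg_left h2 (abs_nonneg _)
      _ = |G.det| := h1
      _ ≤ 2 ^ (n - k) := hGdet

/-- Small integer solutions of a homogeneous system whose rows are sums of two network vectors. -/
theorem small_point {n : ℕ} (R : Set (Fin n → ℤ))
    (hR : ∀ r ∈ R, ∃ a b, IsNet a ∧ IsNet b ∧ r = a + b) (x : Fin n → ℤ)
    (hx : ∀ r ∈ R, ∑ i, r i * x i = 0) (i0 : Fin n) (hi0 : x i0 = 1) :
    ∃ y : Fin n → ℤ, (∀ r ∈ R, ∑ i, r i * y i = 0) ∧ y i0 = 1 ∧ ∀ j, |y j| ≤ 2 ^ (n - 1) := by
  obtain ⟨k, B, hk, hspan, h0, h1⟩ := basis_small R hR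
  have hxm : x ∈ Submodule.span ℤ (Set.range B) := by rw [hspan]; exact hx
  cases k with
  | zero =>
    exfalso
    have : x = 0 := by
      have : Set.range B = ∅ := Set.range_eq_empty _
      rw [this, Submodule.span_empty] at hxm
      exact (Submodule.mem_bot ℤ).1 hxm
    rw [this] at hi0
    simp at hi0
  | succ k =>
    have h1' : ∀ J, |mnr B J| ≤ 2 ^ (n - 1) := fun J =>
      (h1 J).trans (pow_le_pow_right₀ (by norm_num) (by omega))
    obtain ⟨y, hy, hy0, hyb⟩ := homogeneous (2 ^ (n - 1)) B h0 h1' i0 x hxm hi0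
    rw [hspan] at hy
    exact ⟨y, hy, hy0, hyb⟩

end Pool.Agent.X277.IS
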